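import Mathlib

set_option autoImplicit false

namespace Helper383.Box

open Finset

/-- `A i, B i` (`i < d`) are the colour classes of `d` complete bipartite subgraphs of the complete
graph on `Fin n`, and every edge `uv` lies in at least `1` and at most `k` of them. -/
def IsCovering (k d n : ℕ) (A B : Fin d → Set (Fin n)) : Prop :=
  (∀ i, Disjoint (A i) (B i)) ∧
  ∀ u v : Fin n, u ≠ v →
    1 ≤ {i : Fin d | (u ∈ A i ∧ v ∈ B i) ∨ (v ∈ A i ∧ u ∈ B i)}.ncard ∧
    {i : Fin d | (u ∈ A i ∧ v ∈ B i) ∨ (v ∈ A i ∧ u ∈ B i)}.ncard ≤ k

/-- `K_n` has a bipartite covering of order `k` and size `d`. -/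
def HasCovering (k d n : ℕ) : Prop := ∃ A B : Fin d → Set (Fin n), IsCovering k d n A B

/-- `n(k,d)`: the largest `n` such that `K_n` has a bipartite covering of order `k` and size `d`. -/
noncomputable def nkd (k d : ℕ) : ℕ := sSup {n | HasCovering k d n}

/-- conflict set of two 0-1 vectors with free coordinates -/
def conf {d : ℕ} (p q : Fin d → Option Bool) : Finset (Fin d) :=
  univ.filter fun i => ∃ b : Bool, p i = some b ∧ q i = some (!b)

theorem mem_conf {d : ℕ} {p q : Fin d → Option Bool} {i : Fin d} :
    i ∈ conf p q ↔ ∃ b : Bool, p i = some b ∧ q i = some (!b) := by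
  simp [conf]

/-- from vectors with free coordinates to coverings -/
theorem hasCovering_of_vec {k d : ℕ} {V : Type} [Fintype V] (p : V → Fin d → Option Bool)
    (h : ∀ u v, u ≠ v → 1 ≤ (conf (p u) (p v)).card ∧ (conf (p u) (p v)).card ≤ k) :
    HasCovering k d (Fintype.card V) := by
  classical
  let e := (Fintype.equivFin V).symm
  refine ⟨fun i => {v | p (e v) i = some true}, fun i => {v | p (e v) i = some false}, ?_, ?_⟩
  · intro i
    rw [Set.disjoint_left]
    intro v hv hv'
    simp only [Set.mem_ofPred_eq] at hv hv'
    rw [hv] at hv'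
    simp at hv'
  · intro u v huv
    have hne : e u ≠ e v := fun h => huv (e.injective h)
    have hs : {i : Fin d | (u ∈ {v | p (e v) i = some true} ∧ v ∈ {v | p (e v) i = some false}) ∨
        (v ∈ {v | p (e v) i = some true} ∧ u ∈ {v | p (e v) i = some false})} =
        (conf (p (e u)) (p (e v)) : Set (Fin d)) := by
      ext i
      simp only [Set.mem_ofPred_eq, Finset.mem_coe, mem_conf]
      constructor
      · rintro (⟨h1, h2⟩ | ⟨h1, h2⟩)
        · exact ⟨true, h1, h2⟩
        · exact ⟨false, h2, h1⟩
      · rintro ⟨b, h1, h2⟩
        cases b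
        · exact Or.inr ⟨h2, h1⟩
        · exact Or.inl ⟨h1, h2⟩
    rw [hs, Set.ncard_coe_finset]
    exact h _ _ hne

/-- from coverings to vectors with free coordinates -/
theorem vec_of_hasCovering {k d n : ℕ} (h : HasCovering k d n) :
    ∃ p : Fin n → Fin d → Option Bool,
      ∀ u v, u ≠ v → 1 ≤ (conf (p u) (p v)).card ∧ (conf (p u) (p v)).card ≤ k := by
  classical
  obtain ⟨A, B, hd, hc⟩ := h
  refine ⟨fun v i => if v ∈ A i then some true else if v ∈ B i then some false else none, ?_⟩
  intro u v huv
  have hs : {i : Fin d | (u ∈ A i ∧ v ∈ B i) ∨ (v ∈ A i ∧ u ∈ B i)} =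
      (conf (fun i => if u ∈ A i then some true else if u ∈ B i then some false else none)
        (fun i => if v ∈ A i then some true else if v ∈ B i then some false else none) :
        Set (Fin d)) := by
    ext i
    have hdi := Set.disjoint_left.1 (hd i)
    simp only [Set.mem_ofPred_eq, Finset.mem_coe, mem_conf]
    constructor
    · rintro (⟨h1, h2⟩ | ⟨h1, h2⟩)
      · refine ⟨true, by simp [h1], ?_⟩
        have : v ∉ A i := fun h => hdi h h2
        simp [this, h2]
      · refine ⟨false, ?_, by simp [h1]⟩
        have : u ∉ A i := fun h => hdi h h2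
        simp [this, h2]
    · rintro ⟨b, h1, h2⟩
      cases b
      · right
        constructor
        · by_contra hcon
          simp only [hcon, if_false] at h2
          split_ifs at h2 <;> simp at h2
        · by_contra hcon
          simp only [hcon, if_false] at h1
          split_ifs at h1 <;> simp at h1
      · left
        constructor
        · by_contra hcon
          simp only [hcon, if_false] at h1
          split_ifs at h1 <;> simp at h1
        · by_contra hcon
          simp only [hcon, if_false] at h2
          split_ifs at h2 <;> simp at h2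
  have := hc u v huv
  rw [hs, Set.ncard_coe_finset] at this
  exact this

end Helper383.Box
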