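import Mathlib
import Pool.Agent.Helper383.Box.Defs

set_option autoImplicit false

namespace Helper383.Box

open Finset

/-- fixed coordinates -/
def fix {d : ℕ} (p : Fin d → Option Bool) : Finset (Fin d) := univ.filter fun i => p i ≠ none

/-- the subcube -/
def cube {d : ℕ} (p : Fin d → Option Bool) : Finset (Fin d → Bool) :=
  Fintype.piFinset fun i => (match p i with | none => univ | some b => {b} : Finset Bool)

theorem mem_cube {d : ℕ} {p : Fin d → Option Bool} {x : Fin d → Bool} :
    x ∈ cube p ↔ ∀ i, ∀ b, p i = some b → x i = b := by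
  unfold cube
  rw [Fintype.mem_piFinset]
  refine forall_congr' fun i => ?_
  cases h : p i with
  | none => simp
  | some b =>
    simp only [mem_singleton, Option.some.injEq]
    constructor
    · rintro rfl b' rfl; rfl
    · intro h'; exact h' b rfl

theorem card_cube {d : ℕ} (p : Fin d → Option Bool) : (cube p).card * 2 ^ (fix p).card = 2 ^ d := by
  unfold cube
  rw [Fintype.card_piFinset]
  have h1 : (2 : ℕ) ^ (fix p).card = ∏ i : Fin d, (if p i ≠ none then 2 else 1) := by
    rw [Finset.prod_ite]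
    simp [fix]
  rw [h1, ← Finset.prod_mul_distrib]
  have h2 : ∀ i : Fin d, ((match p i with | none => univ | some b => {b} : Finset Bool).card *
      (if p i ≠ none then 2 else 1)) = 2 := by
    intro i
    cases h : p i with
    | none => simp
    | some b => simp
  rw [Finset.prod_congr rfl fun i _ => h2 i]
  simp

theorem fix_inter_subset {d : ℕ} {p q : Fin d → Option Bool} {x : Fin d → Bool}
    (hx : x ∈ cube p) (hy : (fun i => !x i) ∈ cube q) : fix p ∩ fix q ⊆ conf p q := by
  intro i hi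
  rw [mem_inter] at hi
  simp only [fix, mem_filter, mem_univ, true_and] at hi
  obtain ⟨h1, h2⟩ := hi
  obtain ⟨b, hb⟩ := Option.ne_none_iff_exists'.1 h1
  obtain ⟨c, hc⟩ := Option.ne_none_iff_exists'.1 h2
  rw [mem_conf]
  refine ⟨b, hb, ?_⟩
  rw [hc]
  have h3 := mem_cube.1 hx i b hb
  have h4 := mem_cube.1 hy i c hc
  rw [← h4, h3]

theorem pow_ineq {d k f g : ℕ} (hf : f ≤ d) (hg : g ≤ d) (h : f + g ≤ d + k) :
    2 ^ f + 2 ^ g ≤ 2 ^ d + 2 ^ k := by
  have h1 : (2 : ℤ) ^ f ≤ 2 ^ d := pow_le_pow_right₀ (by norm_num) hf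
  have h2 : (2 : ℤ) ^ g ≤ 2 ^ d := pow_le_pow_right₀ (by norm_num) hg
  have h3 : (2 : ℤ) ^ f * 2 ^ g ≤ 2 ^ d * 2 ^ k := by
    rw [← pow_add, ← pow_add]
    exact pow_le_pow_right₀ (by norm_num) h
  have h4 : (2 : ℤ) ^ d * (2 ^ f + 2 ^ g) ≤ 2 ^ d * (2 ^ d + 2 ^ k) := by
    nlinarith [mul_nonneg (sub_nonneg.2 h1) (sub_nonneg.2 h2)]
  have h5 : (2 : ℤ) ^ f + 2 ^ g ≤ 2 ^ d + 2 ^ k := le_of_mul_le_mul_left h4 (by positivity)
  exact_mod_cast h5

/-- weight of a point -/
def W {d n : ℕ} (p : Fin n → Fin d → Option Bool) (x : Fin d → Bool) : ℕ :=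
  ∑ v : Fin n, if x ∈ cube (p v) then 2 ^ (fix (p v)).card else 0

theorem sum_W {d n : ℕ} (p : Fin n → Fin d → Option Bool) : ∑ x, W p x = n * 2 ^ d := by
  unfold W
  rw [Finset.sum_comm]
  have : ∀ v : Fin n, ∑ x : Fin d → Bool, (if x ∈ cube (p v) then 2 ^ (fix (p v)).card else 0) =
      2 ^ d := by
    intro v
    rw [← Finset.sum_filter, Finset.sum_const, smul_eq_mul]
    have h : univ.filter (fun x => x ∈ cube (p v)) = cube (p v) := by ext x; simp
    rw [h, card_cube]
  rw [Finset.sum_congr rfl fun v _ => this v]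
  simp

theorem W_eq {d n k : ℕ} {p : Fin n → Fin d → Option Bool}
    (h : ∀ u v, u ≠ v → 1 ≤ (conf (p u) (p v)).card ∧ (conf (p u) (p v)).card ≤ k)
    {x : Fin d → Bool} {u : Fin n} (hu : x ∈ cube (p u)) : W p x = 2 ^ (fix (p u)).card := by
  unfold W
  rw [Finset.sum_eq_single u]
  · simp [hu]
  · intro v _ hvu
    rw [if_neg]
    intro hv
    have h1 := (h v u hvu).1
    obtain ⟨i, hi⟩ := Finset.card_pos.1 h1
    rw [mem_conf] at hi
    obtain ⟨b, h2, h3⟩ := hi
    have h4 := mem_cube.1 hv i _ h2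
    have h5 := mem_cube.1 hu i _ h3
    rw [h4] at h5
    cases b <;> simp at h5
  · intro h'; exact absurd (mem_univ u) h'

theorem W_pair {d n k : ℕ} {p : Fin n → Fin d → Option Bool}
    (h : ∀ u v, u ≠ v → 1 ≤ (conf (p u) (p v)).card ∧ (conf (p u) (p v)).card ≤ k)
    (x : Fin d → Bool) : W p x + W p (fun i => !x i) ≤ 2 ^ d + 2 ^ k := by
  have hd : ∀ v, (fix (p v)).card ≤ d := fun v => by
    have := Finset.card_le_univ (fix (p v))
    simpa using this
  have hz : ∀ y : Fin d → Bool, (∀ u, y ∉ cube (p u)) → W p y = 0 := by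
    intro y hy
    unfold W
    exact Finset.sum_eq_zero fun v _ => by simp [hy v]
  have hpow : ∀ v, 2 ^ (fix (p v)).card ≤ 2 ^ d := fun v => Nat.pow_le_pow_right (by norm_num) (hd v)
  by_cases h1 : ∃ u, x ∈ cube (p u)
  · obtain ⟨u, hu⟩ := h1
    rw [W_eq h hu]
    by_cases h2 : ∃ v, (fun i => !x i) ∈ cube (p v)
    · obtain ⟨v, hv⟩ := h2
      rw [W_eq h hv]
      by_cases huv : u = v
      · subst huv
        have h3 : fix (p u) = ∅ := by
          rw [Finset.eq_empty_iff_forall_notMem]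
          intro i hi
          simp only [fix, mem_filter, mem_univ, true_and] at hi
          obtain ⟨b, hb⟩ := Option.ne_none_iff_exists'.1 hi
          have h4 := mem_cube.1 hu i b hb
          have h5 := mem_cube.1 hv i b hb
          rw [h4] at h5
          cases b <;> simp at h5
        rw [h3]
        have h6 : 1 ≤ 2 ^ d := Nat.one_le_two_pow
        have h7 : 1 ≤ 2 ^ k := Nat.one_le_two_pow
        simp
        omega
      · refine pow_ineq (hd u) (hd v) ?_
        rw [← Finset.card_union_add_card_inter]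
        refine add_le_add ?_ ?_
        · have := Finset.card_le_univ (fix (p u) ∪ fix (p v))
          simpa using this
        · exact (Finset.card_le_card (fix_inter_subset hu hv)).trans (h u v huv).2
    · push Not at h2
      rw [hz _ h2]
      have := hpow u
      exact le_trans (by omega) (Nat.le_add_right _ _)
  · push Not at h1
    rw [hz _ h1]
    by_cases h2 : ∃ v, (fun i => !x i) ∈ cube (p v)
    · obtain ⟨v, hv⟩ := h2
      rw [W_eq h hv]
      have := hpow v
      exact le_trans (by omega) (Nat.le_add_right _ _)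
    · push Not at h2
      rw [hz _ h2]
      exact Nat.zero_le _

/-- the upper bound -/
theorem upper {k d n : ℕ} (h : HasCovering k d n) : 2 * n ≤ 2 ^ d + 2 ^ k := by
  obtain ⟨p, hp⟩ := vec_of_hasCovering h
  have h1 : ∑ x : Fin d → Bool, W p (fun i => !x i) = ∑ x, W p x := by
    refine Finset.sum_nbij' (fun x i => !x i) (fun x i => !x i) ?_ ?_ ?_ ?_ ?_
    all_goals simp
  have h2 : ∑ x : Fin d → Bool, (W p x + W p (fun i => !x i)) ≤ ∑ _x : Fin d → Bool, (2 ^ d + 2 ^ k) :=
    Finset.sum_le_sum fun x _ => W_pair hp x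
  rw [Finset.sum_add_distrib, h1, sum_W] at h2
  simp only [sum_const, card_univ, Fintype.card_pi, Fintype.card_bool, prod_const, Fintype.card_fin,
    smul_eq_mul] at h2
  have h3 : 2 ^ d * (2 * n) ≤ 2 ^ d * (2 ^ d + 2 ^ k) := by
    calc 2 ^ d * (2 * n) = n * 2 ^ d + n * 2 ^ d := by ring
      _ ≤ _ := h2
  exact Nat.le_of_mul_le_mul_left h3 (by positivity)

/-- every vertex class is at most the whole cube -/
theorem bddAbove (k d : ℕ) : BddAbove {n | HasCovering k d n} :=
  ⟨2 ^ d + 2 ^ k, fun n hn => by have := upper hn; omega⟩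

theorem isGreatest (k d : ℕ) : IsGreatest {n | HasCovering k d n} (nkd k d) := by
  refine ⟨Nat.sSup_mem ⟨0, ?_⟩ (bddAbove k d), fun n hn => le_csSup (bddAbove k d) hn⟩
  exact ⟨fun _ => ∅, fun _ => ∅, fun i => Set.disjoint_left.2 fun v => v.elim0, fun u => u.elim0⟩

theorem le_nkd {k d n : ℕ} (h : HasCovering k d n) : n ≤ nkd k d := (isGreatest k d).2 h

theorem nkd_le (k d : ℕ) : 2 * nkd k d ≤ 2 ^ d + 2 ^ k := upper (isGreatest k d).1

end Helper383.Box
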