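import Mathlib
import Pool.Agent.Helper383.Box.Upper

set_option autoImplicit false

namespace Helper383.Box

open Finset

/-- the index type of the construction -/
abbrev VV (k r : ℕ) : Type :=
  {s : Finset (Fin (k + r)) // s.card ≤ k / 2} ⊕ {s : Finset (Fin k) // k / 2 < s.card}

/-- the vectors with free coordinates of the construction -/
def vec (k r : ℕ) : VV k r → Fin (k + r) → Option Bool
  | Sum.inl s => fun i => some (decide (i ∈ s.1))
  | Sum.inr s => fun i => if h : i.1 < k then some (decide ((⟨i.1, h⟩ : Fin k) ∈ s.1)) else none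

theorem conf_comm_card {d : ℕ} (p q : Fin d → Option Bool) : (conf p q).card = (conf q p).card := by
  congr 1
  ext i
  rw [mem_conf, mem_conf]
  constructor
  · rintro ⟨b, h1, h2⟩; exact ⟨!b, h2, by simp [h1]⟩
  · rintro ⟨b, h1, h2⟩; exact ⟨!b, h2, by simp [h1]⟩

theorem conf_le_of_none {k r : ℕ} (p q : Fin (k + r) → Option Bool)
    (h : ∀ i : Fin (k + r), k ≤ i.1 → q i = none) : (conf p q).card ≤ k := by
  have hsub : (conf p q) ⊆ (univ : Finset (Fin k)).image (Fin.castAdd r) := by
    intro i hi
    rw [mem_conf] at hi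
    obtain ⟨b, h1, h2⟩ := hi
    have hlt : i.1 < k := by
      by_contra hcon
      rw [h i (not_lt.1 hcon)] at h2
      simp at h2
    rw [mem_image]
    exact ⟨⟨i.1, hlt⟩, mem_univ _, Fin.ext rfl⟩
  refine (Finset.card_le_card hsub).trans (Finset.card_image_le.trans ?_)
  simp

theorem conf_pos {d : ℕ} {p q : Fin d → Option Bool} {i : Fin d} {b : Bool} (h1 : p i = some b)
    (h2 : q i = some (!b)) : 1 ≤ (conf p q).card :=
  Finset.card_pos.2 ⟨i, mem_conf.2 ⟨b, h1, h2⟩⟩

theorem exists_diff {α : Type} [DecidableEq α] {s t : Finset α} (h : s ≠ t) :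
    ∃ i, decide (i ∈ t) = !decide (i ∈ s) := by
  by_contra hcon
  push Not at hcon
  apply h
  ext i
  have := hcon i
  by_cases h1 : i ∈ s <;> by_cases h2 : i ∈ t <;> simp_all

theorem good_ll (k r : ℕ) (s t : {s : Finset (Fin (k + r)) // s.card ≤ k / 2}) (h : s ≠ t) :
    1 ≤ (conf (vec k r (Sum.inl s)) (vec k r (Sum.inl t))).card ∧
      (conf (vec k r (Sum.inl s)) (vec k r (Sum.inl t))).card ≤ k := by
  constructor
  · obtain ⟨i, hi⟩ := exists_diff (fun h' => h (Subtype.ext h') : s.1 ≠ t.1)
    refine conf_pos (i := i) (b := decide (i ∈ s.1)) rfl ?_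
    change some (decide (i ∈ t.1)) = _
    rw [hi]
  · have hsub : conf (vec k r (Sum.inl s)) (vec k r (Sum.inl t)) ⊆ s.1 ∪ t.1 := by
      intro i hi
      rw [mem_conf] at hi
      obtain ⟨b, h1, h2⟩ := hi
      have h3 : decide (i ∈ s.1) = b := Option.some.inj h1
      have h4 : decide (i ∈ t.1) = !b := Option.some.inj h2
      rw [mem_union]
      cases b
      · right; simpa using h4
      · left; simpa using h3
    have h1 := (Finset.card_le_card hsub).trans (Finset.card_union_le _ _)
    have h2 := s.2
    have h3 := t.2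
    omega

theorem good_rr (k r : ℕ) (s t : {s : Finset (Fin k) // k / 2 < s.card}) (h : s ≠ t) :
    1 ≤ (conf (vec k r (Sum.inr s)) (vec k r (Sum.inr t))).card ∧
      (conf (vec k r (Sum.inr s)) (vec k r (Sum.inr t))).card ≤ k := by
  constructor
  · obtain ⟨i, hi⟩ := exists_diff (fun h' => h (Subtype.ext h') : s.1 ≠ t.1)
    refine conf_pos (i := Fin.castAdd r i) (b := decide (i ∈ s.1)) ?_ ?_
    · simp [vec]
    · simp only [vec, Fin.val_castAdd, i.2, dif_pos]
      rw [← hi]
  · refine conf_le_of_none _ _ fun i hi => ?_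
    simp [vec, not_lt.2 hi]

theorem good_lr (k r : ℕ) (s : {s : Finset (Fin (k + r)) // s.card ≤ k / 2})
    (t : {s : Finset (Fin k) // k / 2 < s.card}) :
    1 ≤ (conf (vec k r (Sum.inl s)) (vec k r (Sum.inr t))).card ∧
      (conf (vec k r (Sum.inl s)) (vec k r (Sum.inr t))).card ≤ k := by
  constructor
  · obtain ⟨i, hi1, hi2⟩ : ∃ i, i ∈ t.1 ∧ Fin.castAdd r i ∉ s.1 := by
      by_contra hcon
      push Not at hcon
      have hsub : t.1.image (Fin.castAdd r) ⊆ s.1 := by
        intro i hi
        obtain ⟨j, hj, rfl⟩ := mem_image.1 hi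
        exact hcon j hj
      have h1 := Finset.card_le_card hsub
      rw [Finset.card_image_of_injective _ (Fin.castAdd_injective _ _)] at h1
      have h2 := s.2
      have h3 := t.2
      omega
    refine conf_pos (i := Fin.castAdd r i) (b := false) ?_ ?_
    · simp [vec, hi2]
    · simp [vec, hi1]
  · refine conf_le_of_none _ _ fun i hi => ?_
    simp [vec, not_lt.2 hi]

theorem good (k r : ℕ) (u v : VV k r) (h : u ≠ v) :
    1 ≤ (conf (vec k r u) (vec k r v)).card ∧ (conf (vec k r u) (vec k r v)).card ≤ k := by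
  rcases u with s | s <;> rcases v with t | t
  · exact good_ll k r s t (fun h' => h (congrArg _ h'))
  · exact good_lr k r s t
  · rw [conf_comm_card]; exact good_lr k r t s
  · exact good_rr k r s t (fun h' => h (congrArg _ h'))

theorem card_low (N t : ℕ) :
    Fintype.card {s : Finset (Fin N) // s.card ≤ t} = ∑ i ∈ range (t + 1), N.choose i := by
  rw [Fintype.card_subtype]
  have h1 : univ.filter (fun s : Finset (Fin N) => s.card ≤ t) =
      (range (t + 1)).biUnion fun i => powersetCard i univ := by
    ext s
    simp only [mem_filter, mem_univ, true_and, mem_biUnion, mem_range, mem_powersetCard, subset_univ,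
      exists_eq_right']
    omega
  rw [h1, Finset.card_biUnion]
  · refine Finset.sum_congr rfl fun i _ => ?_
    rw [card_powersetCard]
    simp
  · intro i _ j _ hij
    exact Finset.pairwise_disjoint_powersetCard _ hij

theorem card_high (N t : ℕ) :
    Fintype.card {s : Finset (Fin N) // t < s.card} = ∑ i ∈ Ioc t N, N.choose i := by
  rw [Fintype.card_subtype]
  have h1 : univ.filter (fun s : Finset (Fin N) => t < s.card) =
      (Ioc t N).biUnion fun i => powersetCard i univ := by
    ext s
    have hs : s.card ≤ N := by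
      have := Finset.card_le_univ s
      simpa using this
    simp only [mem_filter, mem_univ, true_and, mem_biUnion, mem_Ioc, mem_powersetCard, subset_univ,
      exists_eq_right']
    omega
  rw [h1, Finset.card_biUnion]
  · refine Finset.sum_congr rfl fun i _ => ?_
    rw [card_powersetCard]
    simp
  · intro i _ j _ hij
    exact Finset.pairwise_disjoint_powersetCard _ hij

theorem lower (k r : ℕ) :
    ∑ i ∈ range (k / 2 + 1), (k + r).choose i + ∑ i ∈ Ioc (k / 2) k, k.choose i ≤ nkd k (k + r) := by
  have h := hasCovering_of_vec (vec k r) (good k r)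
  have h1 := le_nkd h
  rw [Fintype.card_sum, card_low, card_high] at h1
  exact h1

end Helper383.Box
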