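import Mathlib
import Pool.Agent.Helper383.Box.Lower

set_option autoImplicit false

namespace Helper383.Box

open Finset

/-- the three vectors with free coordinates in two coordinates -/
def cmb : Fin 3 → Fin 2 → Option Bool
  | 0 => ![some false, none]
  | 1 => ![some true, some false]
  | 2 => ![some true, some true]

theorem cmb_conf (a b : Fin 3) (h : a ≠ b) :
    (∃ i c, cmb a i = some c ∧ cmb b i = some (!c)) ∧
      ∃ i, ¬ ∃ c, cmb a i = some c ∧ cmb b i = some (!c) := by
  fin_cases a <;> fin_cases b <;> first | exact absurd rfl h | decide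

theorem cmb_self (a : Fin 3) : ¬ ∃ c, cmb a 0 = some c ∧ cmb a 0 = some (!c) := by
  fin_cases a <;> decide

/-- the vectors with free coordinates for `k = d - 1` -/
def vec2 (e : ℕ) (u : (Fin e → Bool) × Fin 3) : Fin (e + 2) → Option Bool :=
  Fin.append (fun i => some (u.1 i)) (cmb u.2)

theorem vec2_left (e : ℕ) (u : (Fin e → Bool) × Fin 3) (i : Fin e) :
    vec2 e u (Fin.castAdd 2 i) = some (u.1 i) := by simp [vec2]

theorem vec2_right (e : ℕ) (u : (Fin e → Bool) × Fin 3) (i : Fin 2) :
    vec2 e u (Fin.natAdd e i) = cmb u.2 i := by simp [vec2]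

theorem good2 (e : ℕ) (u v : (Fin e → Bool) × Fin 3) (h : u ≠ v) :
    1 ≤ (conf (vec2 e u) (vec2 e v)).card ∧ (conf (vec2 e u) (vec2 e v)).card ≤ e + 1 := by
  constructor
  · by_cases h1 : u.1 = v.1
    · have h2 : u.2 ≠ v.2 := fun h' => h (Prod.ext h1 h')
      obtain ⟨⟨i, c, h3, h4⟩, _⟩ := cmb_conf _ _ h2
      exact conf_pos (i := Fin.natAdd e i) (b := c) (by rw [vec2_right, h3]) (by rw [vec2_right, h4])
    · obtain ⟨i, hi⟩ := Function.ne_iff.1 h1
      refine conf_pos (i := Fin.castAdd 2 i) (b := u.1 i) (vec2_left _ _ _) ?_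
      rw [vec2_left, Bool.eq_not_of_ne (Ne.symm hi)]
  · obtain ⟨i, hi⟩ : ∃ i : Fin 2, Fin.natAdd e i ∉ conf (vec2 e u) (vec2 e v) := by
      by_cases h2 : u.2 = v.2
      · refine ⟨0, ?_⟩
        rw [mem_conf, vec2_right, vec2_right, h2]
        exact cmb_self _
      · obtain ⟨_, i, hi⟩ := cmb_conf _ _ h2
        refine ⟨i, ?_⟩
        rw [mem_conf, vec2_right, vec2_right]
        exact hi
    have hsub : conf (vec2 e u) (vec2 e v) ⊆ univ.erase (Fin.natAdd e i) := by
      intro j hj
      rw [mem_erase]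
      exact ⟨fun h' => hi (h' ▸ hj), mem_univ _⟩
    have := Finset.card_le_card hsub
    rw [Finset.card_erase_of_mem (mem_univ _), card_univ, Fintype.card_fin] at this
    omega

theorem exact (d : ℕ) (hd : 2 ≤ d) : nkd (d - 1) d = 3 * 2 ^ (d - 2) := by
  obtain ⟨e, rfl⟩ := Nat.exists_eq_add_of_le' hd
  have h1 : e + 2 - 1 = e + 1 := by omega
  have h2 : e + 2 - 2 = e := by omega
  rw [h1, h2]
  apply le_antisymm
  · have := nkd_le (e + 1) (e + 2)
    simp only [pow_succ] at this
    omega
  · have h := le_nkd (hasCovering_of_vec (vec2 e) (good2 e))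
    rw [Fintype.card_prod, Fintype.card_fin] at h
    simp only [Fintype.card_pi, Fintype.card_bool, prod_const, card_univ, Fintype.card_fin] at h
    omega

end Helper383.Box
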