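import Mathlib
import Pool.Agent.Helper383.Box.Exact

set_option autoImplicit false

namespace Helper383.Box

open Finset Filter Topology

theorem prod_eq (r k : ℕ) (h : r < k) :
    ∏ i ∈ range k, ((k + r + i) / k + 1) = 3 ^ r * 2 ^ (k - r) := by
  have hk : range k = range ((k - r) + r) := by rw [Nat.sub_add_cancel h.le]
  rw [hk, prod_range_add]
  have h1 : ∏ x ∈ range (k - r), ((k + r + x) / k + 1) = 2 ^ (k - r) := by
    rw [prod_congr rfl (g := fun _ => 2) (fun x hx => by
      have hx' := mem_range.1 hx
      have : (k + r + x) / k = 1 := Nat.div_eq_of_lt_le (by omega) (by omega)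
      rw [this])]
    simp
  have h2 : ∏ x ∈ range r, ((k + r + (k - r + x)) / k + 1) = 3 ^ r := by
    rw [prod_congr rfl (g := fun _ => 3) (fun x hx => by
      have hx' := mem_range.1 hx
      have : (k + r + (k - r + x)) / k = 2 := Nat.div_eq_of_lt_le (by omega) (by omega)
      rw [this])]
    simp
  rw [h1, h2, mul_comm]

end Helper383.Box
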