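import Mathlib
import Pool.Agent.Helper383.Box.Prod

set_option autoImplicit false

namespace Helper383.Box

open Finset Filter Topology

theorem cb_bound_352 (m : ℕ) : Nat.centralBinom m ^ 2 * (2 * m + 1) ≤ 16 ^ m := by
  induction m with
  | zero => simp
  | succ m ih =>
    have h := Nat.succ_mul_centralBinom_succ m
    have h2 : ((m + 1) * Nat.centralBinom (m + 1)) ^ 2 =
        (2 * (2 * m + 1) * Nat.centralBinom m) ^ 2 := by rw [h]
    have h3 : (m + 1) ^ 2 * (Nat.centralBinom (m + 1) ^ 2 * (2 * (m + 1) + 1)) ≤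
        (m + 1) ^ 2 * 16 ^ (m + 1) := by
      calc (m + 1) ^ 2 * (Nat.centralBinom (m + 1) ^ 2 * (2 * (m + 1) + 1))
          = ((m + 1) * Nat.centralBinom (m + 1)) ^ 2 * (2 * (m + 1) + 1) := by ring
        _ = (2 * (2 * m + 1) * Nat.centralBinom m) ^ 2 * (2 * (m + 1) + 1) := by rw [h2]
        _ = (Nat.centralBinom m ^ 2 * (2 * m + 1)) * (4 * (2 * m + 1) * (2 * m + 3)) := by ring
        _ ≤ 16 ^ m * (4 * (2 * m + 1) * (2 * m + 3)) := Nat.mul_le_mul_right _ ih
        _ ≤ 16 ^ m * (16 * (m + 1) ^ 2) := Nat.mul_le_mul_left _ (by nlinarith)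
        _ = (m + 1) ^ 2 * 16 ^ (m + 1) := by ring
    exact Nat.le_of_mul_le_mul_left h3 (by positivity)

theorem mid_bound_352 (N : ℕ) : N.choose (N / 2) ^ 2 * (N + 1) ≤ 4 ^ N := by
  rcases Nat.even_or_odd' N with ⟨m, rfl | rfl⟩
  · have h := cb_bound_352 m
    have e : 2 * m / 2 = m := by omega
    rw [e]
    have e2 : (4 : ℕ) ^ (2 * m) = 16 ^ m := by rw [pow_mul]; norm_num
    rw [e2]
    exact h
  · have h := cb_bound_352 (m + 1)
    have e : (2 * m + 1) / 2 = m := by omega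
    rw [e]
    have h1 : Nat.centralBinom (m + 1) = 2 * (2 * m + 1).choose m := by
      rw [Nat.centralBinom_eq_two_mul_choose]
      have : 2 * (m + 1) = (2 * m + 1) + 1 := by ring
      rw [this, Nat.choose_succ_succ, Nat.choose_symm_half]
      ring
    rw [h1] at h
    have e2 : (16 : ℕ) ^ (m + 1) = 4 * 4 ^ (2 * m + 1) := by
      rw [pow_succ (4 : ℕ) (2 * m), pow_mul]; norm_num; ring
    rw [e2] at h
    have h3 : 4 * ((2 * m + 1).choose m ^ 2 * (2 * m + 1 + 1)) ≤ 4 * 4 ^ (2 * m + 1) := by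
      refine le_trans ?_ h
      have : (2 * (2 * m + 1).choose m) ^ 2 * (2 * (m + 1) + 1) =
        4 * ((2 * m + 1).choose m ^ 2 * (2 * m + 1 + 1)) + 4 * (2 * m + 1).choose m ^ 2 := by ring
      rw [this]
      exact Nat.le_add_right _ _
    exact Nat.le_of_mul_le_mul_left h3 (by norm_num)

theorem lip_352 (N a d : ℕ) : ∑ i ∈ range (a + d), N.choose i ≤
    ∑ i ∈ range a, N.choose i + d * N.choose (N / 2) := by
  induction d with
  | zero => simp
  | succ d ih =>
    rw [← Nat.add_assoc, sum_range_succ]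
    have := Nat.choose_le_middle (a + d) N
    calc _ ≤ ∑ i ∈ range a, N.choose i + d * N.choose (N / 2) + N.choose (N / 2) :=
          Nat.add_le_add ih this
      _ = _ := by ring

theorem refl_352 (N s : ℕ) (hs : s ≤ N + 1) :
    ∑ i ∈ range s, N.choose i + ∑ i ∈ range (N + 1 - s), N.choose i = 2 ^ N := by
  have h := Nat.sum_range_choose N
  have e : N + 1 = (N + 1 - s) + s := by omega
  rw [e, sum_range_add] at h
  rw [← h, add_comm]
  congr 1
  rw [← Finset.sum_range_reflect (fun j => N.choose (N + 1 - s + j)) s]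
  refine Finset.sum_congr rfl fun j hj => ?_
  have hj' := Finset.mem_range.1 hj
  have e2 : N + 1 - s + (s - 1 - j) = N - j := by omega
  rw [e2, Nat.choose_symm (by omega)]

theorem two_352 (k r : ℕ) :
    2 * (∑ i ∈ range (k / 2 + 1), (k + r).choose i) ≤
      2 ^ (k + r) + (r + 1) * (k + r).choose ((k + r) / 2) ∧
    2 ^ (k + r) ≤ 2 * (∑ i ∈ range (k / 2 + 1), (k + r).choose i) +
      (r + 1) * (k + r).choose ((k + r) / 2) := by
  have h := refl_352 (k + r) (k / 2 + 1) (by omega)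
  have e : k + r + 1 - (k / 2 + 1) = k + r - k / 2 := by omega
  rw [e] at h
  set M := (k + r).choose ((k + r) / 2) with hM
  set P := ∑ i ∈ range (k / 2 + 1), (k + r).choose i with hP
  set Q := ∑ i ∈ range (k + r - k / 2), (k + r).choose i with hQ
  have h1 : P ≤ Q + (r + 1) * M := by
    have hl := lip_352 (k + r) (k + r - k / 2) (r + 1)
    refine le_trans ?_ hl
    apply Finset.sum_le_sum_of_subset
    apply Finset.range_mono
    omega
  have h2 : Q ≤ P + (r + 1) * M := by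
    have hl := lip_352 (k + r) (k / 2 + 1) (r + 1)
    refine le_trans ?_ hl
    apply Finset.sum_le_sum_of_subset
    apply Finset.range_mono
    omega
  constructor
  · omega
  · omega

theorem main_352 (r : ℕ) :
    Tendsto (fun k : ℕ => ((∑ i ∈ range (k / 2 + 1), (k + r).choose i : ℕ) : ℝ) / 2 ^ (k + r))
      atTop (𝓝 (1 / 2)) := by
  have hlim : Tendsto (fun k : ℕ => ((r : ℝ) + 1) / 2 * (Real.sqrt ((k : ℝ) + r + 1))⁻¹) atTop
      (𝓝 0) := by
    have h : Tendsto (fun k : ℕ => Real.sqrt ((k : ℝ) + r + 1)) atTop atTop :=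
      Real.tendsto_sqrt_atTop.comp (tendsto_atTop_add_const_right _ _
        (tendsto_atTop_add_const_right _ _ tendsto_natCast_atTop_atTop))
    simpa using h.inv_tendsto_atTop.const_mul (((r : ℝ) + 1) / 2)
  rw [tendsto_iff_norm_sub_tendsto_zero]
  refine squeeze_zero (fun _ => norm_nonneg _) (fun k => ?_) hlim
  obtain ⟨h1, h2⟩ := two_352 k r
  have h3 := mid_bound_352 (k + r)
  set M := (k + r).choose ((k + r) / 2) with hM
  set P := ∑ i ∈ range (k / 2 + 1), (k + r).choose i with hP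
  have h1' : 2 * (P : ℝ) ≤ 2 ^ (k + r) + ((r : ℝ) + 1) * M := by exact_mod_cast h1
  have h2' : (2 : ℝ) ^ (k + r) ≤ 2 * P + ((r : ℝ) + 1) * M := by exact_mod_cast h2
  have h3' : (M : ℝ) ^ 2 * ((k : ℝ) + r + 1) ≤ (2 ^ (k + r)) ^ 2 := by
    have : ((M ^ 2 * (k + r + 1) : ℕ) : ℝ) ≤ ((4 ^ (k + r) : ℕ) : ℝ) := by exact_mod_cast h3
    push_cast at this
    have e : ((2 : ℝ) ^ (k + r)) ^ 2 = 4 ^ (k + r) := by
      rw [← pow_mul, mul_comm, pow_mul]; norm_num
    rw [e]
    exact this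
  set s := Real.sqrt ((k : ℝ) + r + 1) with hs
  have hs0 : 0 < s := Real.sqrt_pos.2 (by positivity)
  have hs2 : s ^ 2 = (k : ℝ) + r + 1 := Real.sq_sqrt (by positivity)
  set T : ℝ := 2 ^ (k + r) with hT
  have hT0 : 0 < T := by positivity
  have h4 : (M : ℝ) * s ≤ T := by
    rw [← hs2, ← mul_pow] at h3'
    exact le_of_sq_le_sq h3' hT0.le
  have h5 : (M : ℝ) ≤ T * s⁻¹ := by
    rw [← div_eq_mul_inv, le_div_iff₀ hs0]
    exact h4
  have e1 : (P : ℝ) / T - 1 / 2 = (2 * P - T) / (2 * T) := by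
    field_simp
  rw [e1, Real.norm_eq_abs, abs_div, abs_of_pos (by positivity : (0 : ℝ) < 2 * T),
    div_le_iff₀ (by positivity)]
  have h6 : |2 * (P : ℝ) - T| ≤ ((r : ℝ) + 1) * M := by
    rw [abs_le]
    constructor <;> linarith
  refine h6.trans ?_
  calc ((r : ℝ) + 1) * M ≤ ((r : ℝ) + 1) * (T * s⁻¹) :=
        mul_le_mul_of_nonneg_left h5 (by positivity)
    _ = ((r : ℝ) + 1) / 2 * s⁻¹ * (2 * T) := by ring

theorem tendsto_lower (r : ℕ) :
    Tendsto (fun k : ℕ => ((∑ i ∈ range (k / 2 + 1), (k + r).choose i +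
      ∑ i ∈ Ioc (k / 2) k, k.choose i : ℕ) : ℝ) / 2 ^ (k + r)) atTop
      (𝓝 ((1 + (1 / 2) ^ r) / 2)) := by
  have h1 := main_352 r
  have h2 := main_352 0
  have h3 : Tendsto (fun k : ℕ => ((∑ i ∈ range (k / 2 + 1), (k + r).choose i : ℕ) : ℝ) / 2 ^ (k + r)
      + (1 / 2) ^ r * (1 - ((∑ i ∈ range (k / 2 + 1), (k + 0).choose i : ℕ) : ℝ) / 2 ^ (k + 0)))
      atTop (𝓝 (1 / 2 + (1 / 2) ^ r * (1 - 1 / 2))) :=
    h1.add ((h2.const_sub 1).const_mul _)
  have e : (1 : ℝ) / 2 + (1 / 2) ^ r * (1 - 1 / 2) = (1 + (1 / 2) ^ r) / 2 := by ring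
  rw [e] at h3
  refine h3.congr fun k => ?_
  have h4 : (∑ i ∈ range (k / 2 + 1), k.choose i) + ∑ i ∈ Ioc (k / 2) k, k.choose i = 2 ^ k := by
    rw [← Nat.sum_range_choose k]
    have e1 : Ioc (k / 2) k = Ico (k / 2 + 1) (k + 1) := by
      ext x
      simp only [Finset.mem_Ioc, Finset.mem_Ico]
      omega
    rw [e1, Finset.range_eq_Ico, Finset.range_eq_Ico]
    exact Finset.sum_Ico_consecutive _ (Nat.zero_le _) (by omega)
  have h5 : ((∑ i ∈ Ioc (k / 2) k, k.choose i : ℕ) : ℝ) =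
      2 ^ k - ((∑ i ∈ range (k / 2 + 1), k.choose i : ℕ) : ℝ) := by
    have : (((∑ i ∈ range (k / 2 + 1), k.choose i) + ∑ i ∈ Ioc (k / 2) k, k.choose i : ℕ) : ℝ) =
      ((2 ^ k : ℕ) : ℝ) := by rw [h4]
    rw [Nat.cast_add] at this
    push_cast at this ⊢
    linarith
  rw [Nat.cast_add, h5, Nat.add_zero, pow_add, one_div, inv_pow]
  field_simp
  ring_nf

end Helper383.Box
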