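import Mathlib
import Pool.Agent.Helper383.Box.Asym

set_option autoImplicit false

namespace Helper383.Box

open Finset Filter Topology

theorem tendsto_nkd (r : ℕ) :
    Tendsto (fun k : ℕ => (nkd k (k + r) : ℝ) / 2 ^ (k + r)) atTop (𝓝 ((1 + (1 / 2) ^ r) / 2)) := by
  refine tendsto_of_tendsto_of_tendsto_of_le_of_le (tendsto_lower r) tendsto_const_nhds ?_ ?_
  · intro k
    have h := lower k r
    have h1 : ((∑ i ∈ range (k / 2 + 1), (k + r).choose i +
      ∑ i ∈ Ioc (k / 2) k, k.choose i : ℕ) : ℝ) ≤ (nkd k (k + r) : ℝ) := by exact_mod_cast h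
    exact div_le_div_of_nonneg_right h1 (by positivity)
  · intro k
    have h : (2 * nkd k (k + r) : ℝ) ≤ 2 ^ (k + r) + 2 ^ k := by exact_mod_cast nkd_le k (k + r)
    have hp : (0 : ℝ) < 2 ^ (k + r) := by positivity
    rw [div_le_iff₀ hp]
    have h2 : ((1 / 2 : ℝ)) ^ r * 2 ^ (k + r) = 2 ^ k := by
      rw [pow_add, mul_comm ((2 : ℝ) ^ k), ← mul_assoc, ← mul_pow]
      norm_num
    nlinarith

theorem ineq34 (r : ℕ) (hr : 2 ≤ r) : ((3 : ℝ) / 4) ^ r < (1 + (1 / 2) ^ r) / 2 := by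
  induction r, hr using Nat.le_induction with
  | base => norm_num
  | succ r hr ih =>
    have h1 : (0 : ℝ) < (1 / 2) ^ r := by positivity
    have h2 : ((1 : ℝ) / 2) ^ r ≤ (1 / 2) ^ 2 := pow_le_pow_of_le_one (by norm_num) (by norm_num) hr
    rw [pow_succ, pow_succ]
    nlinarith

theorem prod_lt (r : ℕ) (hr : 2 ≤ r) :
    ∀ᶠ k in atTop, ∏ i ∈ range k, ((k + r + i) / k + 1) < nkd k (k + r) := by
  have h1 := (tendsto_nkd r).eventually (lt_mem_nhds (ineq34 r hr))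
  filter_upwards [h1, eventually_gt_atTop r] with k hk hkr
  rw [prod_eq r k hkr]
  rw [lt_div_iff₀ (by positivity)] at hk
  have h2 : ((3 : ℝ) / 4) ^ r * 2 ^ (k + r) = ((3 ^ r * 2 ^ (k - r) : ℕ) : ℝ) := by
    obtain ⟨m, rfl⟩ := Nat.exists_eq_add_of_lt hkr
    have h3 : r + m + 1 - r = m + 1 := by omega
    rw [h3]
    push_cast
    have h4 : (2 : ℝ) ^ (r + m + 1 + r) = 4 ^ r * 2 ^ (m + 1) := by
      have : (4 : ℝ) = 2 ^ 2 := by norm_num
      rw [this, ← pow_mul, ← pow_add]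
      congr 1
      ring
    rw [h4, div_pow]
    field_simp
  rw [h2] at hk
  exact_mod_cast hk

end Helper383.Box
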